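import Pool.Agent.Run7.h376.QL.Main

/-!
# L-convex quasi-Banach lattices are homeomorphic to Banach spaces

Problem `MP_c51823_gt`, question Q1 (is every quasi-Banach space homeomorphic to a Hilbert space?).

The definitions are in `Pool/Agent/Run7/h376/QL/Main.lean` and `Lat.lean`:

* `QuasiNormed X q`: `q` is a quasi-norm on the real vector space `X`, and the sets
  `{y | q (y - x) < ε}` form a base of neighbourhoods of `x`; `IsCompleteQN q`: each Cauchy sequence
  converges.
* `Lat E N p`: `E` is a linear space of measurable real functions on the measurable space `S`, and `N`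
  is a homogeneous function on `E` with values in `[0, ∞)` such that `E` is solid (a measurable `g` with
  `|g| ≤ |f|`, `f ∈ E`, is in `E`, and `N g ≤ N f`) and `p`-convex:
  `N ((|f|^p + |g|^p)^(1/p))^p ≤ N(f)^p + N(g)^p`.

The theorem: a complete quasi-normed real space `X` which is isomorphic to `E` modulo the functions with
`N f = 0` (that is, there is a linear surjection `J : E → X` with `a N(f) ≤ q (J f) ≤ b N(f)`) for such
a lattice with `0 < p ≤ 1` is homeomorphic to a real Banach space. By the theorem of Torunczyk on the page,
`X` is homeomorphic to a Hilbert space. If the measurable sets are all sets, `E` is a space of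
functions or sequences on `S`; if `N` depends only on the classes modulo equality almost everywhere,
`X` is a quasi-Banach function space over a measure space, of any density.

Proof: the homeomorphism is `f ↦ sgn(f) |f|^p`, to the convexification, the space of the `v` with
`|v|^(1/p) ∈ E` and the norm `N (|v|^(1/p))^p`. The continuity in both directions comes from
`|sgn(s) |s|^r - sgn(t) |t|^r| ≤ ε |s|^r + K |s - t|^r` and the `p`-convexity.
-/

set_option autoImplicit false

namespace Pool.Agent.Results.MP_c51823_gt.LConvexLattices

open Run7.h376.QL

universe u v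

/-- **A complete quasi-normed space which is isomorphic to a `p`-convex lattice of functions,
`0 < p ≤ 1`, is homeomorphic to a Banach space.** -/
theorem result {S : Type u} [MeasurableSpace S] (E : Submodule ℝ (S → ℝ)) (N : (S → ℝ) → ℝ) (p : ℝ)
    (hE : Lat E N p) (hp : p ≤ 1) {X : Type v} [AddCommGroup X] [Module ℝ X] [TopologicalSpace X]
    (q : X → ℝ) (hX : QuasiNormed X q) (hc : IsCompleteQN q) (J : E →ₗ[ℝ] X)
    (hJ : Function.Surjective J) (a b : ℝ) (ha : 0 < a)
    (hlow : ∀ f : E, a * N f.1 ≤ q (J f)) (hup : ∀ f : E, q (J f) ≤ b * N f.1) :
    ∃ (Y : Type u) (_ : NormedAddCommGroup Y) (_ : NormedSpace ℝ Y), CompleteSpace Y ∧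
      Nonempty (X ≃ₜ Y) :=
  main2 hE hp J hX hc hJ a b ha hlow hup

end Pool.Agent.Results.MP_c51823_gt.LConvexLattices
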